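import Pool.Agent.Lib.MP_0dcd56_mp.Final
import Pool.Agent.Lib.MP_0dcd56_mp.Model

set_option autoImplicit false

open Pool.Agent.Lib.MP_0dcd56_mp

namespace Pool.Agent.Results.MP_0dcd56_mp.MasterSymmetries

/-- For every `n ≥ 1` the function `y ^ n` is a mastersymmetry of the dispersionless potential BKP
equation: the expression `V_[,]^(n+1) y^n` vanishes, for every `w ∈ D`, in every formal calculus
`(F, ∂_x, ∂_y, ∂_x⁻¹, x, y, D)` over a field `k` of characteristic zero. -/
theorem result {k F : Type*} [Field k] [CharZero k] [CommRing F] [Algebra k F]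
    (K : Calculus k F) (w : F) (hw : w ∈ K.D) (n : ℕ) (_hn : 1 ≤ n) :
    ((Expr.bracket^[n + 1]) (Expr.ypow n)).eval K.toOps w = 0 :=
  final K w hw n

end Pool.Agent.Results.MP_0dcd56_mp.MasterSymmetries
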